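import Pool.Agent.H14.TA.Stmts

/-!
# Project ART, module CNT
-/

namespace TA

namespace CNT

theorem cr_congr {I Γ : Type*} [Group Γ] {γ : I → Γ} {x : I} {B : Subgroup Γ} {t t' g : Γ}
    {s : I × ℤ} (h : t⁻¹ * t' ∈ B) (hc : Cr γ x B t g s) : Cr γ x B t' g s := by
  obtain ⟨h1, i, hi, hiB⟩ := hc
  refine ⟨h1, i, hi, ?_⟩
  have := B.mul_mem (B.inv_mem h) hiB
  have e : (t⁻¹ * t')⁻¹ * (t⁻¹ * g * γ x ^ i) = t'⁻¹ * g * γ x ^ i := by group
  rwa [e] at this

/-- The data attached to a position. -/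
structure Wall (κ : ℕ) (σ : Fam → G κ → G κ → ZMod 2) (w : List (Fin 3 × ℤ)) (j : ℕ)
    (W : Fam × G κ) : Prop where
  sep : σ W.1 W.2 (ev (gen κ) w) = 1
  cross : ∃ l1 s l2, w = l1 ++ s :: l2 ∧ Cr (gen κ) W.1.1 (QF κ W.1) W.2 (ev (gen κ) l1) s
  type : (∃ w1 v w2 z, Part w w1 v w2 z ∧ w1.length ≤ j ∧ j < w1.length + v.length ∧
      7 ≤ v.length ∧ ∀ l1 s l2, w = l1 ++ s :: l2 →
        Cr (gen κ) W.1.1 (QF κ W.1) W.2 (ev (gen κ) l1) s →
        w1.length < l1.length ∧ l1.length + 1 < w1.length + v.length) ∨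
    ((∀ w1 v w2 z, Part w w1 v w2 z → w1.length ≤ j → j < w1.length + v.length →
      v.length ≤ 6) ∧ ∀ l1 s l2, w = l1 ++ s :: l2 →
        Cr (gen κ) W.1.1 (QF κ W.1) W.2 (ev (gen κ) l1) s → l1.length = j)

theorem step_ne {e : ℤ} (he : e ≠ 0) : ∃ i, i ∈ step e := by
  rcases lt_or_gt_of_ne he with h | h
  · exact ⟨e, by simp [step, h]⟩
  · exact ⟨0, by simp [step, h]⟩

theorem exists_wall (hM1A : S_M1A) (hM1C : S_M1C) (hM2 : S_M2) (hQA : S_QA) (hG : S_GOODF)
    {κ : ℕ} (hκ : 20 ≤ κ) {σ : Fam → G κ → G κ → ZMod 2} (hσ : GSides κ σ)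
    {w : List (Fin 3 × ℤ)} (hgeo : Geo (gen κ) w) (j : ℕ) (hj : j < w.length) :
    ∃ W, Wall κ σ w j W := by
  by_cases hp : ∃ w1 v w2 z, Part w w1 v w2 z ∧ w1.length ≤ j ∧ j < w1.length + v.length ∧
      7 ≤ v.length
  · obtain ⟨w1, v, w2, z, hpart, h1, h2, h3⟩ := hp
    obtain ⟨F, t, hst⟩ := (hM1C κ hκ σ hσ w w1 v w2 z hgeo hpart).1 h3
    obtain ⟨a1, a2, a3⟩ := hM1A κ hκ σ hσ w w1 v w2 z hgeo hpart F t hst
    exact ⟨(F, t), a3, a2, Or.inl ⟨w1, v, w2, z, hpart, h1, h2, h3, a1⟩⟩
  · have hp' : ∀ w1 v w2 z, Part w w1 v w2 z → w1.length ≤ j → j < w1.length + v.length →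
        v.length ≤ 6 := by
      intro w1 v w2 z hpart h1 h2
      by_contra hcon
      exact hp ⟨w1, v, w2, z, hpart, h1, h2, by omega⟩
    obtain ⟨l1, s, l2, hw, hl1⟩ : ∃ l1 s l2, w = l1 ++ s :: l2 ∧ l1.length = j :=
      ⟨w.take j, w[j], w.drop (j + 1), by simp, by simp; omega⟩
    subst hl1
    have hs : s.2 ≠ 0 := hgeo.red.2 s (by rw [hw]; simp)
    obtain ⟨i, hi⟩ := step_ne hs
    have hc : Cr (gen κ) s.1 (QF κ (s.1, false)) (ev (gen κ) l1 * gen κ s.1 ^ i)
        (ev (gen κ) l1) s := by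
      refine ⟨rfl, i, hi, ?_⟩
      have e : (ev (gen κ) l1 * gen κ s.1 ^ i)⁻¹ * ev (gen κ) l1 * gen κ s.1 ^ i = 1 := by group
      rw [e]
      exact (QF κ (s.1, false)).one_mem
    have huniq := hM2 κ hκ w l1 s l2 hgeo hw hp' _ hc
    have hB : ∀ n : ℤ, gen κ s.1 ^ n ∈ QF κ (s.1, false) → n = 0 :=
      (hQA κ hκ s.1 (BF κ (s.1, false)) (hG κ hκ (s.1, false))).1
    refine ⟨((s.1, false), ev (gen κ) l1 * gen κ s.1 ^ i), ?_, ⟨l1, s, l2, hw, hc⟩,
      Or.inr ⟨hp', huniq⟩⟩
    exact (hσ (s.1, false)).eq_one_of_unique hB _ w l1 s l2 hw hc huniq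

end CNT

open CNT in
theorem cnt_of (hM1A : S_M1A) (hM1C : S_M1C) (hM2 : S_M2) (hM3 : S_M3) (hP : S_PARTS)
    (hQA : S_QA) (hG : S_GOODF) : S_CNT := by
  classical
  intro κ hκ σ hσ w hgeo R hR
  have hlen : w.length ≤ R * (CC κ R + 1) := by
    have hex : ∀ j : Fin w.length, ∃ W, Wall κ σ w j W := fun j =>
      exists_wall hM1A hM1C hM2 hQA hG hκ hσ hgeo j j.2
    choose W hW using hex
    let r : Setoid (Fin w.length) :=
      { r := fun j k => ∃ h : (W j).1 = (W k).1, (W j).2⁻¹ * (W k).2 ∈ QF κ (W j).1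
        iseqv := by
          refine ⟨fun j => ⟨rfl, by simp⟩, ?_, ?_⟩
          · rintro j k ⟨h1, h2⟩
            refine ⟨h1.symm, ?_⟩
            rw [← h1]
            have := (QF κ (W j).1).inv_mem h2
            have e : ((W j).2⁻¹ * (W k).2)⁻¹ = (W k).2⁻¹ * (W j).2 := by group
            rwa [e] at this
          · rintro j k l ⟨h1, h2⟩ ⟨h3, h4⟩
            refine ⟨h1.trans h3, ?_⟩
            rw [← h1] at h4
            have := (QF κ (W j).1).mul_mem h2 h4
            have e : (W j).2⁻¹ * (W k).2 * ((W k).2⁻¹ * (W l).2) = (W j).2⁻¹ * (W l).2 := by group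
            rwa [e] at this }
    have hrel : ∀ j k : Fin w.length, r j k ↔
        ∃ h : (W j).1 = (W k).1, (W j).2⁻¹ * (W k).2 ∈ QF κ (W j).1 := fun j k => Iff.rfl
    have hfin : Fintype (Quotient r) := Fintype.ofFinite _
    have hout : ∀ c d : Quotient r, r c.out d.out → c = d := by
      intro c d h
      rw [← c.out_eq, ← d.out_eq]
      exact Quotient.sound h
    -- number of classes
    have hcl : Fintype.card (Quotient r) ≤ R := by
      let T : Finset (Fam × G κ) := Finset.univ.image (fun c : Quotient r => W c.out)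
      have hT1 : Diff (fun F => QF κ F) T := by
        intro p hp q hq hpq hpq'
        obtain ⟨c, -, rfl⟩ := Finset.mem_image.1 hp
        obtain ⟨d, -, rfl⟩ := Finset.mem_image.1 hq
        have := hout c d ⟨hpq, hpq'⟩
        rw [this]
      have hT2 : ∀ p ∈ T, σ p.1 p.2 (ev (gen κ) w) = 1 := by
        intro p hp
        obtain ⟨c, -, rfl⟩ := Finset.mem_image.1 hp
        exact (hW _).sep
      have hT3 : T.card = Fintype.card (Quotient r) := by
        rw [Finset.card_image_of_injective, Finset.card_univ]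
        intro c d hcd
        have hcd' : W c.out = W d.out := hcd
        apply hout
        rw [hrel, hcd']
        exact ⟨rfl, by simp⟩
      rw [← hT3]
      exact hR T hT1 hT2
    -- size of classes
    have hfib : ∀ c ∈ Finset.univ.image (Quotient.mk r), ((Finset.univ : Finset (Fin w.length)).filter
        (fun j => Quotient.mk r j = c)).card ≤ CC κ R + 1 := by
      intro c _
      -- related positions
      have hcr : ∀ j k : Fin w.length, r j k → ∀ l1 s l2, w = l1 ++ s :: l2 →
          Cr (gen κ) (W j).1.1 (QF κ (W j).1) (W j).2 (ev (gen κ) l1) s →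
          Cr (gen κ) (W k).1.1 (QF κ (W k).1) (W k).2 (ev (gen κ) l1) s := by
        rintro j k ⟨h1, h2⟩ l1 s l2 _ hc
        rw [← h1]
        exact cr_congr h2 hc
      by_cases hty : ∃ j : Fin w.length, Quotient.mk r j = c ∧
          ∃ w1 v w2 z, Part w w1 v w2 z ∧ w1.length ≤ (j : ℕ) ∧ (j : ℕ) < w1.length + v.length ∧
          7 ≤ v.length ∧ ∀ l1 s l2, w = l1 ++ s :: l2 →
          Cr (gen κ) (W j).1.1 (QF κ (W j).1) (W j).2 (ev (gen κ) l1) s →
          w1.length < l1.length ∧ l1.length + 1 < w1.length + v.length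
      · obtain ⟨j, rfl, w1, v, w2, z, hpart, h1, h2, h3, h4⟩ := hty
        have hv : v.length ≤ CC κ R := (hM1C κ hκ σ hσ w w1 v w2 z hgeo hpart).2 R hR
        have hsub : (Finset.univ.filter (fun k => Quotient.mk r k = Quotient.mk r j)).map
            Fin.valEmbedding ⊆ Finset.Ico w1.length (w1.length + v.length) := by
          intro k hk
          obtain ⟨k, hk', rfl⟩ := Finset.mem_map.1 hk
          have hkj : r k j := Quotient.exact (Finset.mem_filter.1 hk').2
          rw [Finset.mem_Ico]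
          obtain ⟨l1, s, l2, hl, hc⟩ := (hW k).cross
          have hint := h4 l1 s l2 hl (hcr k j hkj l1 s l2 hl hc)
          rcases (hW k).type with ⟨w1', v', w2', z', hpart', k1, k2, k3, k4⟩ | ⟨k1, k2⟩
          · have hint' := k4 l1 s l2 hl hc
            obtain ⟨e1, e2⟩ := hP.2.2 w w1 v w2 w1' v' w2' z z' hgeo.red hpart hpart' l1.length
              hint.1 hint.2 hint'.1 hint'.2
            subst e1 e2
            exact ⟨k1, k2⟩
          · have hk2 := k2 l1 s l2 hl hc
            show w1.length ≤ (k : ℕ) ∧ (k : ℕ) < w1.length + v.length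
            omega
        have := Finset.card_le_card hsub
        rw [Finset.card_map, Nat.card_Ico] at this
        omega
      · have : (Finset.univ.filter (fun k => Quotient.mk r k = c)).card ≤ 1 := by
          rw [Finset.card_le_one]
          intro j hj k hk
          have hj' := (Finset.mem_filter.1 hj).2
          have hk' := (Finset.mem_filter.1 hk).2
          have hjk : r j k := Quotient.exact (hj'.trans hk'.symm)
          obtain ⟨l1, s, l2, hl, hc⟩ := (hW j).cross
          have hj2 : l1.length = (j : ℕ) := by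
            rcases (hW j).type with h | ⟨-, h⟩
            · exact absurd ⟨j, hj', h⟩ hty
            · exact h l1 s l2 hl hc
          have hk2 : l1.length = (k : ℕ) := by
            rcases (hW k).type with h | ⟨-, h⟩
            · exact absurd ⟨k, hk', h⟩ hty
            · exact h l1 s l2 hl (hcr j k hjk l1 s l2 hl hc)
          exact Fin.ext (hj2.symm.trans hk2)
        omega
    have h1 := Finset.card_le_mul_card_image (f := Quotient.mk r)
      (Finset.univ : Finset (Fin w.length)) (CC κ R + 1) hfib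
    rw [Finset.card_univ, Fintype.card_fin] at h1
    have h2 : (Finset.univ.image (Quotient.mk r)).card ≤ R :=
      (Finset.card_le_univ _).trans hcl
    calc w.length ≤ (CC κ R + 1) * (Finset.univ.image (Quotient.mk r)).card := h1
      _ ≤ (CC κ R + 1) * R := Nat.mul_le_mul_left _ h2
      _ = R * (CC κ R + 1) := Nat.mul_comm _ _
  refine ⟨by omega, ?_⟩
  intro s hs
  obtain ⟨l1, l2, hw⟩ := List.append_of_mem hs
  have hB : ∀ n : ℤ, gen κ s.1 ^ n ∈ QF κ (s.1, false) → n = 0 :=
    (hQA κ hκ s.1 (BF κ (s.1, false)) (hG κ hκ (s.1, false))).1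
  let t : ℤ → G κ := fun i => ev (gen κ) l1 * gen κ s.1 ^ i
  have ht : ∀ i i', (t i)⁻¹ * t i' ∈ QF κ (s.1, false) → i = i' := by
    intro i i' h
    have e : (t i)⁻¹ * t i' = gen κ s.1 ^ (i' - i) := by
      show (ev (gen κ) l1 * gen κ s.1 ^ i)⁻¹ * (ev (gen κ) l1 * gen κ s.1 ^ i') = _
      rw [sub_eq_neg_add, zpow_add]; group
    rw [e] at h
    have := hB _ h
    omega
  have hcr : ∀ i ∈ step s.2, Cr (gen κ) s.1 (QF κ (s.1, false)) (t i) (ev (gen κ) l1) s := by
    intro i hi
    refine ⟨rfl, i, hi, ?_⟩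
    have e : (t i)⁻¹ * ev (gen κ) l1 * gen κ s.1 ^ i = 1 := by
      show (ev (gen κ) l1 * gen κ s.1 ^ i)⁻¹ * ev (gen κ) l1 * gen κ s.1 ^ i = 1
      group
    rw [e]
    exact (QF κ (s.1, false)).one_mem
  rw [← card_step, ← Finset.card_filter_add_card_filter_not
    (fun i => σ (s.1, false) (t i) (ev (gen κ) w) = 1)]
  have hA : ((step s.2).filter (fun i => σ (s.1, false) (t i) (ev (gen κ) w) = 1)).card ≤ R := by
    let A := (step s.2).filter (fun i => σ (s.1, false) (t i) (ev (gen κ) w) = 1)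
    let T : Finset (Fam × G κ) := A.image (fun i => ((s.1, false), t i))
    have hT : T.card = A.card := by
      apply Finset.card_image_of_injective
      intro i i' h
      have h' : t i = t i' := congrArg Prod.snd h
      apply ht
      rw [h', inv_mul_cancel]
      exact Subgroup.one_mem _
    rw [show ((step s.2).filter (fun i => σ (s.1, false) (t i) (ev (gen κ) w) = 1)).card = T.card
      from hT.symm]
    apply hR
    · intro p hp q hq hpq hpq'
      obtain ⟨i, -, rfl⟩ := Finset.mem_image.1 hp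
      obtain ⟨i', -, rfl⟩ := Finset.mem_image.1 hq
      rw [ht i i' hpq']
    · intro p hp
      obtain ⟨i, hi, rfl⟩ := Finset.mem_image.1 hp
      exact (Finset.mem_filter.1 hi).2
  have hBc : ((step s.2).filter (fun i => ¬ σ (s.1, false) (t i) (ev (gen κ) w) = 1)).card ≤
      w.length := by
    have hex : ∀ i ∈ (step s.2).filter (fun i => ¬ σ (s.1, false) (t i) (ev (gen κ) w) = 1),
        ∃ m : List (Fin 3 × ℤ) × (Fin 3 × ℤ) × List (Fin 3 × ℤ), w = m.1 ++ m.2.1 :: m.2.2 ∧
          Cr (gen κ) s.1 (QF κ (s.1, false)) (t i) (ev (gen κ) m.1) m.2.1 ∧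
          m.1.length ≠ l1.length := by
      intro i hi
      obtain ⟨hi1, hi2⟩ := Finset.mem_filter.1 hi
      by_contra hcon
      apply hi2
      refine (hσ (s.1, false)).eq_one_of_unique hB (t i) w l1 s l2 hw (hcr i hi1) ?_
      intro m1 v m2 hm hc
      by_contra hne
      exact hcon ⟨(m1, v, m2), hm, hc, hne⟩
    choose! m hm1 hm2 hm3 using hex
    rw [← Finset.card_range w.length]
    refine Finset.card_le_card_of_injOn (fun i => (m i).1.length) ?_ ?_
    · intro i hi
      have h := congrArg List.length (hm1 i hi)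
      rw [List.length_append, List.length_cons] at h
      simp only [Finset.coe_range, Set.mem_Iio]
      omega
    · intro i hi i' hi' hii
      have hii' : (m i).1.length = (m i').1.length := hii
      have h1 := hm1 i hi
      have h1' := hm1 i' hi'
      have h2 := List.append_inj (h1.symm.trans h1') hii'
      have h3 := List.cons.inj h2.2
      apply ht
      have c1 := hm2 i hi
      have c2 := hm2 i' hi'
      rw [← h2.1, ← h3.1] at c2
      have hs' : (m i).2.1.1 = s.1 := c1.1
      have k1 := hcr i (Finset.mem_filter.1 hi).1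
      have k2 := hcr i' (Finset.mem_filter.1 hi').1
      rcases lt_or_gt_of_ne (hm3 i hi) with hlt | hlt
      · have := hM3 κ hκ w (m i).1 (m i).2.1 (m i).2.2 l1 s l2 hgeo h1 hw hlt hs'.symm (t i) (t i')
        rw [hs'] at this
        exact this c1 k1 c2 k2
      · exact hM3 κ hκ w l1 s l2 (m i).1 (m i).2.1 (m i).2.2 hgeo hw h1 hlt hs' (t i) (t i')
          k1 c1 k2 c2
  omega

end TA
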