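import Pool.Agent.H14.TA.Stmts

/-!
# Project ART, module GR: Greendlinger's lemma for `G κ`
-/

namespace TA

namespace GR

/-- the rotation subgroups: the relations among two letters -/
def RR (κ : ℕ) (z : Fin 3) : Subgroup P := Pz z ⊓ (phom (gen κ)).ker

theorem mem_RR {κ : ℕ} {z : Fin 3} {w : P} : w ∈ RR κ z ↔ w ∈ Pz z ∧ phom (gen κ) w = 1 := by
  rw [RR, Subgroup.mem_inf, MonoidHom.mem_ker]

theorem two_letters {κ : ℕ} (hR : S_RETL) (hD2 : S_D2) (hκ : 1 ≤ κ) (z : Fin 3) (w : P)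
    (hw : w ∈ RR κ z) (h1 : w ≠ 1) : κ ≤ len w + 2 := by
  obtain ⟨hz, hw1⟩ := mem_RR.1 hw
  have hxy : z + 1 ≠ z + 2 := (by decide : ∀ z : Fin 3, z + 1 ≠ z + 2) z
  have hcases : ∀ s : Fin 3, s ≠ z → s = z + 1 ∨ s = z + 2 :=
    (by decide : ∀ z s : Fin 3, s ≠ z → s = z + 1 ∨ s = z + 2) z
  obtain ⟨l', h2, h3, h4⟩ := (hR κ (z + 1) (z + 2) hxy).2.1 (nf w)
    (fun s hs => hcases _ (mem_Pz.1 hz s hs))
  rw [← phom_eq, hw1] at h4
  have h5 : ev (dgen κ) l' = 1 := by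
    apply iota_injective κ hxy
    rw [← h4, map_one]
  have hne : l' ≠ [] := by
    rintro rfl
    apply h1
    rw [← nf_eq_nil]
    exact List.length_eq_zero_iff.1 h2.symm
  have := hD2 κ hκ l' (h3 (nf_red w)) hne h5
  rw [len]
  omega

/-- the normal subgroup generated by all rotations -/
def MM (κ : ℕ) : Subgroup P := Subgroup.closure {x | ∃ Y : Fin 3 × P, MemRY (RR κ) Y x}

instance (κ : ℕ) : (MM κ).Normal := by
  constructor
  intro n hn g
  unfold MM at hn ⊢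
  induction hn using Subgroup.closure_induction with
  | mem x hx =>
    obtain ⟨Y, hY⟩ := hx
    apply Subgroup.subset_closure
    refine ⟨(Y.1, g * Y.2), ?_⟩
    show (g * Y.2)⁻¹ * (g * x * g⁻¹) * (g * Y.2) ∈ RR κ Y.1
    have e : (g * Y.2)⁻¹ * (g * x * g⁻¹) * (g * Y.2) = Y.2⁻¹ * x * Y.2 := by group
    rw [e]
    exact hY
  | one => simp
  | mul x y _ _ hx hy =>
    have e : g * (x * y) * g⁻¹ = (g * x * g⁻¹) * (g * y * g⁻¹) := by group
    rw [e]
    exact Subgroup.mul_mem _ hx hy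
  | inv x _ hx =>
    have e : g * x⁻¹ * g⁻¹ = (g * x * g⁻¹)⁻¹ := by group
    rw [e]
    exact Subgroup.inv_mem _ hx

theorem RR_le (κ : ℕ) (z : Fin 3) {r : P} (hr : r ∈ RR κ z) : r ∈ MM κ := by
  apply Subgroup.subset_closure
  exact ⟨(z, 1), by simpa [MemRY] using hr⟩

theorem pg_mem {x z : Fin 3} (h : x ≠ z) : pg x ∈ Pz z := Subgroup.subset_closure ⟨x, h, rfl⟩

theorem rel_mem (κ : ℕ) (x y : Fin 3) (h : x ≠ y) :
    ((pg x * pg y) ^ (2 * κ))⁻¹ * (pg y * pg x) ^ (2 * κ) ∈ MM κ := by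
  obtain ⟨z, hxz, hyz⟩ : ∃ z : Fin 3, x ≠ z ∧ y ≠ z := by revert x y; decide
  apply RR_le κ z
  rw [mem_RR]
  refine ⟨?_, ?_⟩
  · apply (Pz z).mul_mem
    · exact (Pz z).inv_mem ((Pz z).pow_mem ((Pz z).mul_mem (pg_mem hxz) (pg_mem hyz)) _)
    · exact (Pz z).pow_mem ((Pz z).mul_mem (pg_mem hyz) (pg_mem hxz)) _
  · rw [map_mul, map_inv, map_pow, map_pow, map_mul, map_mul, phom_pg, phom_pg, gen_rel κ x y,
      inv_mul_cancel]

/-- the inverse homomorphism -/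
noncomputable def back (κ : ℕ) : G κ →* P ⧸ MM κ :=
  lift κ (fun x => (QuotientGroup.mk' (MM κ)) (pg x)) (by
    intro x y h
    rw [← map_mul, ← map_mul, ← map_pow, ← map_pow]
    exact QuotientGroup.eq.2 (rel_mem κ x y h))

theorem ker_le (κ : ℕ) (w : P) (hw : phom (gen κ) w = 1) : w ∈ MM κ := by
  have h : back κ (phom (gen κ) w) = QuotientGroup.mk' (MM κ) w := by
    rw [phom_eq, ev_map]
    conv_rhs => rw [← ev_nf w, ev_map]
    congr 1
  rw [hw, map_one] at h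
  have : (QuotientGroup.mk' (MM κ)) w = 1 := h.symm
  exact (QuotientGroup.eq_one_iff w).1 this

end GR

open GR in
theorem gr_of (hWM : S_WM) (hSYL2 : S_SYL2) (hD2 : S_D2) (hR : S_RETL) : S_GR := by
  intro κ hκ l hl hne hev
  have hgeom : SylGeom len Pz := hSYL2
  have hrot : Rot len Pz (RR κ) (κ - 2) := by
    refine ⟨fun z => inf_le_left, ?_, ?_, by omega⟩
    · intro z p r hp hr
      rw [mem_RR] at hr ⊢
      refine ⟨(Pz z).mul_mem ((Pz z).mul_mem hp hr.1) ((Pz z).inv_mem hp), ?_⟩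
      rw [map_mul, map_mul, hr.2, map_inv]
      simp
    · intro z r hr h1
      have := two_letters hR hD2 (by omega) z r hr h1
      omega
  have hw1 : ev pg l ≠ 1 := by
    intro h
    apply hne
    rw [← nf_ev hl, h, nf_one]
  have hw2 : ev pg l ∈ MM κ := ker_le κ _ (by rw [phom_ev, hev])
  obtain ⟨w1, u, w2, v, z, h1, h2, h3, h4, h5, h6, h7⟩ := hWM P len Pz (RR κ) (κ - 2) hgeom hrot
    (ev pg l) hw2 hw1
  -- normal form
  have e1 : len (w1 * u * w2) ≤ len (w1 * u) + len w2 := hgeom.mul _ _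
  have e2 : len (w1 * u) ≤ len w1 + len u := hgeom.mul _ _
  rw [h1] at h2
  have e3 : nf (w1 * u * w2) = nf (w1 * u) ++ nf w2 := nf_mul_of_len (by omega)
  have e4 : nf (w1 * u) = nf w1 ++ nf u := nf_mul_of_len (by omega)
  have e5 : l = nf w1 ++ nf u ++ nf w2 := by
    rw [← e4, ← e3, ← h1, nf_ev hl]
  refine ⟨nf u, ⟨nf w1, nf w2, e5.symm⟩, ⟨z, mem_Pz.1 h3⟩, ?_, nf v, h6, ?_⟩
  · have : len u = (nf u).length := rfl
    omega
  · have h8 := (mem_RR.1 h7).2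
    rw [map_mul, map_inv, mul_inv_eq_one] at h8
    rw [← phom_eq, ← phom_eq, h8]

end TA
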