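import Pool.Agent.H14.TA.Stmts

/-!
# Project ART, module M1A
-/

namespace TA

namespace M1A

theorem other_eq {x y z : Fin 3} (hzx : z ≠ x) (hyx : y ≠ x) (hyz : y ≠ z) :
    ∃ i : Bool, y = yy x i ∧ z = yy x (!i) := by
  revert hzx hyx hyz
  revert x y z
  decide

theorem line (hBL : S_BL) (hG : S_GOODF) {κ : ℕ} (hκ : 20 ≤ κ) (F : Fam) (t g0 : G κ)
    (u w'' : List (Fin 3 × ℤ)) (z : Fin 3) (hgeo : Geo (gen κ) (u ++ w'')) (hu : u ≠ [])
    (hzx : z ≠ F.1) (hhead : ∀ s ∈ u.head?, s.1 ≠ F.1) (huz : ∀ s ∈ u, s.1 ≠ z)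
    (hw : ∀ s ∈ w''.head?, s.1 = z) (a b : ℤ)
    (ha : t⁻¹ * g0 * gen κ F.1 ^ a ∈ QF κ F)
    (hb : t⁻¹ * (g0 * ev (gen κ) (u ++ w'')) * gen κ F.1 ^ b ∈ QF κ F) :
    ∃ n : ℤ, t⁻¹ * (g0 * ev (gen κ) u) * gen κ F.1 ^ n ∈ QF κ F := by
  obtain ⟨s, u', rfl⟩ := List.exists_cons_of_ne_nil hu
  have hs1 : s.1 ≠ F.1 := hhead s (by simp)
  have hs2 : s.1 ≠ z := huz s (by simp)
  obtain ⟨i, hi1, hi2⟩ := other_eq hzx hs1 hs2
  have hq : gen κ F.1 ^ (-a) * ev (gen κ) (s :: u' ++ w'') * gen κ F.1 ^ b ∈ QF κ F := by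
    have h := (QF κ F).mul_mem ((QF κ F).inv_mem ha) hb
    have e : (t⁻¹ * g0 * gen κ F.1 ^ a)⁻¹ * (t⁻¹ * (g0 * ev (gen κ) (s :: u' ++ w'')) *
        gen κ F.1 ^ b) = gen κ F.1 ^ (-a) * ev (gen κ) (s :: u' ++ w'') * gen κ F.1 ^ b := by
      group
    rwa [e] at h
  obtain ⟨β, hβ, -, n, hn⟩ := hBL κ hκ F.1 (BF κ F) (hG κ hκ F) i _ hq (-a) (-b) (s :: u') w''
    hgeo ⟨s, by simp, hi1⟩ (fun r hr => by rw [← hi2]; exact huz r hr)
    (fun r hr => by rw [← hi2]; exact hw r hr) (by group)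
  refine ⟨-n, ?_⟩
  have hβQ : iota κ F.1 (yy F.1 i) β ∈ QF κ F := by
    have h1 : (BF κ F i).map (iota κ F.1 (yy F.1 i)) ≤ QF κ F :=
      le_iSup (fun i => (BF κ F i).map (iota κ F.1 (yy F.1 i))) i
    exact h1 (Subgroup.mem_map_of_mem _ hβ)
  have h := (QF κ F).mul_mem ha hβQ
  have e : t⁻¹ * g0 * gen κ F.1 ^ a * iota κ F.1 (yy F.1 i) β =
      t⁻¹ * (g0 * ev (gen κ) (s :: u')) * gen κ F.1 ^ (-n) := by
    rw [hn]; group
  rwa [e] at h

theorem head_ne {l1 l2 : List (Fin 3 × ℤ)} {s : Fin 3 × ℤ} (h : Red (l1 ++ s :: l2)) :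
    ∀ r ∈ l2.head?, r.1 ≠ s.1 := by
  intro r hr
  have h1 := (h.right).1
  cases l2 with
  | nil => simp at hr
  | cons r' l2 =>
    simp only [List.head?_cons, Option.mem_def, Option.some.injEq] at hr
    subst hr
    rw [List.isChain_cons_cons] at h1
    exact h1.1.symm

theorem last_ne {l1 l2 : List (Fin 3 × ℤ)} {s : Fin 3 × ℤ} (h : Red (l1 ++ s :: l2)) :
    ∀ r ∈ l1.getLast?, r.1 ≠ s.1 := by
  intro r hr
  exact (red_append.1 h).2.2 r hr s (by simp)

end M1A

open M1A in
theorem m1a_of (hBL : S_BL) (hQA : S_QA) (hG : S_GOODF) : S_M1A := by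
  intro κ hκ σ hσ w w1 v w2 z hgeo hpart F t hstrict
  obtain ⟨hs1, hs2, hs3⟩ := hstrict
  obtain ⟨rfl, hmiss, htwo, hleft, hright⟩ := hpart
  have hred := hgeo.red
  have hB : ∀ n : ℤ, gen κ F.1 ^ n ∈ QF κ F → n = 0 := (hQA κ hκ F.1 (BF κ F) (hG κ hκ F)).1
  -- an interior crossing
  obtain ⟨v1, s', v2, hv, hc'⟩ := (hσ F).exists_cross hB t (ev (gen κ) w1) v (by
    rw [hs1]; exact one_ne_zero)
  obtain ⟨hs'x, i', hi', hi'Q⟩ := hc'
  have hv1 : v1 ≠ [] := by
    rintro rfl
    apply hs2 i'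
    simpa using hi'Q
  have hv2 : v2 ≠ [] := by
    rintro rfl
    apply hs3 (i' - s'.2)
    rw [hv, ev_append, ev_append, ev_cons, ev_nil, hs'x]
    have e : t⁻¹ * (ev (gen κ) w1 * (ev (gen κ) v1 * (gen κ F.1 ^ s'.2 * 1))) *
        gen κ F.1 ^ (i' - s'.2) = t⁻¹ * (ev (gen κ) w1 * ev (gen κ) v1) * gen κ F.1 ^ i' := by
      rw [zpow_sub]; group
    rw [e]
    exact hi'Q
  have hzx : z ≠ F.1 := by
    rw [← hs'x]
    exact (hmiss s' (by rw [hv]; simp)).symm
  -- no crossing in `w2`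
  have hw2 : ∀ w3 s w4, w2 = w3 ++ s :: w4 →
      ¬ Cr (gen κ) F.1 (QF κ F) t (ev (gen κ) (w1 ++ v ++ w3)) s := by
    rintro w3 s w4 rfl ⟨hsx, j, hj, hjQ⟩
    have hgeo2 : Geo (gen κ) (v2 ++ w3) := hgeo.sub ⟨w1 ++ v1 ++ [s'], s :: w4, by
      rw [hv]; simp⟩
    have hred2 : Red (v1 ++ s' :: v2) := hred.sub ⟨w1, w3 ++ s :: w4, by rw [hv]⟩
    obtain ⟨n, hn⟩ := line hBL hG hκ F t (ev (gen κ) (w1 ++ v1) * gen κ F.1 ^ s'.2) v2 w3 z hgeo2
      hv2 hzx (fun r hr => by rw [← hs'x]; exact head_ne hred2 r hr)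
      (fun r hr => hmiss r (by rw [hv]; simp [hr]))
      (fun r hr => hright r (by
        cases w3 with
        | nil => simp at hr
        | cons a w3 => simpa using hr)) (i' - s'.2) j (by
        rw [ev_append]
        have e : t⁻¹ * (ev (gen κ) w1 * ev (gen κ) v1 * gen κ F.1 ^ s'.2) *
            gen κ F.1 ^ (i' - s'.2) = t⁻¹ * (ev (gen κ) w1 * ev (gen κ) v1) * gen κ F.1 ^ i' := by
          rw [zpow_sub]; group
        rw [e]
        exact hi'Q) (by
        have e : ev (gen κ) (w1 ++ v ++ w3) =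
            ev (gen κ) (w1 ++ v1) * gen κ F.1 ^ s'.2 * ev (gen κ) (v2 ++ w3) := by
          rw [hv]
          simp only [ev_append, ev_cons, hs'x, mul_assoc]
        rw [← e]
        exact hjQ)
    apply hs3 n
    have e : ev (gen κ) (w1 ++ v) = ev (gen κ) (w1 ++ v1) * gen κ F.1 ^ s'.2 * ev (gen κ) v2 := by
      rw [hv]
      simp only [ev_append, ev_cons, hs'x, mul_assoc]
    rw [e]
    exact hn
  -- no crossing in `w1`
  have hw1 : ∀ w3 s w4, w1 = w3 ++ s :: w4 →
      ¬ Cr (gen κ) F.1 (QF κ F) t (ev (gen κ) w3) s := by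
    rintro w3 s w4 rfl ⟨hsx, j, hj, hjQ⟩
    have hgeo2 : Geo (gen κ) (linv v1 ++ linv w4) := by
      rw [← linv_append]
      exact (hgeo.sub ⟨w3 ++ [s], s' :: v2 ++ w2, by rw [hv]; simp⟩ :
        Geo (gen κ) (w4 ++ v1)).linv
    have hred2 : Red (v1 ++ s' :: v2) := hred.sub ⟨w3 ++ s :: w4, w2, by rw [hv]⟩
    have hhead : ∀ (l : List (Fin 3 × ℤ)) r, r ∈ (linv l).head? → ∃ r' ∈ l.getLast?, r'.1 = r.1 := by
      intro l r hr
      simp only [linv, List.head?_reverse, List.getLast?_map] at hr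
      cases hl : l.getLast? with
      | none => rw [hl] at hr; simp at hr
      | some r' =>
        rw [hl] at hr
        simp only [Option.map_some, Option.mem_def, Option.some.injEq] at hr
        exact ⟨r', rfl, by rw [← hr]⟩
    obtain ⟨n, hn⟩ := line hBL hG hκ F t (ev (gen κ) (w3 ++ s :: w4 ++ v1)) (linv v1) (linv w4) z
      hgeo2 (by
        intro h
        apply hv1
        have := congrArg linv h
        simpa using this) hzx
      (fun r hr => by
        obtain ⟨r', hr', he⟩ := hhead _ _ hr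
        rw [← he, ← hs'x]
        exact last_ne hred2 r' hr')
      (fun r hr => by
        rw [mem_linv] at hr
        exact hmiss (r.1, -r.2) (by rw [hv]; simp [hr]))
      (fun r hr => by
        obtain ⟨r', hr', he⟩ := hhead _ _ hr
        rw [← he]
        refine hleft r' ?_
        have hne : w4 ≠ [] := by
          rintro rfl
          simp at hr'
        rw [List.getLast?_append_of_ne_nil _ (by simp), List.getLast?_cons_of_ne_nil hne]
        exact hr') i' (j - s.2) (by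
        have e : ev (gen κ) (w3 ++ s :: w4 ++ v1) = ev (gen κ) (w3 ++ s :: w4) * ev (gen κ) v1 :=
          ev_append _ _ _
        rw [e]
        exact hi'Q) (by
        have e : ev (gen κ) (w3 ++ s :: w4 ++ v1) * ev (gen κ) (linv v1 ++ linv w4) =
            ev (gen κ) w3 * gen κ F.1 ^ s.2 := by
          simp only [ev_append, ev_cons, ev_linv, hsx]
          group
        rw [e]
        have e2 : t⁻¹ * (ev (gen κ) w3 * gen κ F.1 ^ s.2) * gen κ F.1 ^ (j - s.2) =
            t⁻¹ * ev (gen κ) w3 * gen κ F.1 ^ j := by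
          rw [zpow_sub]; group
        rw [e2]
        exact hjQ)
    apply hs2 n
    have e : ev (gen κ) (w3 ++ s :: w4 ++ v1) * ev (gen κ) (linv v1) =
        ev (gen κ) (w3 ++ s :: w4) := by
      simp only [ev_append, ev_linv]
      group
    rw [← e]
    exact hn
  refine ⟨?_, ?_, ?_⟩
  · -- positions
    intro l1 s l2 hl hc
    constructor
    · by_contra hcon
      rw [not_lt] at hcon
      rcases hcon.lt_or_eq with h | h
      · -- inside `w1`
        have h1 : w1 = l1 ++ s :: (w1.drop (l1.length + 1)) := by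
          have h2 : l1 ++ s :: l2 = w1 ++ (v ++ w2) := by rw [← hl]; simp
          have h3 := congrArg (List.take w1.length) h2
          rw [List.take_left] at h3
          rw [← h3]
          rw [List.take_append, List.take_of_length_le h.le]
          obtain ⟨m, hm⟩ : ∃ m, w1.length - l1.length = m + 1 := ⟨w1.length - l1.length - 1, by omega⟩
          rw [hm, List.take_succ_cons]
          simp
        exact hw1 l1 s _ h1 hc
      · -- first syllable of `v`
        have h2 : l1 ++ s :: l2 = w1 ++ (v ++ w2) := by rw [← hl]; simp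
        have h3 := List.append_inj h2 h
        obtain ⟨h4, h5⟩ := h3
        subst h4
        have h6 : ∃ v', v = s :: v' := by
          cases v with
          | nil => simp at htwo
          | cons a v' => simp only [List.cons_append, List.cons.injEq] at h5; exact ⟨v', by rw [h5.1]⟩
        obtain ⟨hsx, j, hj, hjQ⟩ := hc
        exact hs2 j hjQ
    · by_contra hcon
      rw [not_lt] at hcon
      rcases hcon.lt_or_eq with h | h
      · -- inside `w2`
        have h2 : (w1 ++ v) ++ w2 = l1 ++ s :: l2 := hl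
        have h3 : l1 = (w1 ++ v) ++ l1.drop (w1 ++ v).length := by
          have h4 := congrArg (List.take (w1 ++ v).length) h2
          rw [List.take_left, List.take_append_of_le_length (by simp; omega)] at h4
          conv_lhs => rw [← List.take_append_drop (w1 ++ v).length l1, ← h4]
        have h5 : w2 = l1.drop (w1 ++ v).length ++ s :: l2 := by
          have h6 : (w1 ++ v) ++ w2 = (w1 ++ v) ++ (l1.drop (w1 ++ v).length ++ s :: l2) := by
            rw [← List.append_assoc (w1 ++ v) (l1.drop (w1 ++ v).length), ← h3]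
            exact h2
          exact List.append_cancel_left h6
        apply hw2 _ s l2 h5
        rw [← h3]
        exact hc
      · -- last syllable of `v`
        have h2 : (w1 ++ v) ++ w2 = (l1 ++ [s]) ++ l2 := by rw [hl]; simp
        have h3 := List.append_inj h2 (by simp; omega)
        obtain ⟨hsx, j, hj, hjQ⟩ := hc
        apply hs3 (j - s.2)
        rw [h3.1, ev_append, ev_cons, ev_nil, hsx]
        have e : t⁻¹ * (ev (gen κ) l1 * (gen κ F.1 ^ s.2 * 1)) * gen κ F.1 ^ (j - s.2) =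
            t⁻¹ * ev (gen κ) l1 * gen κ F.1 ^ j := by
          rw [zpow_sub]; group
        rw [e]
        exact hjQ
  · refine ⟨w1 ++ v1, s', v2 ++ w2, by rw [hv]; simp, hs'x, i', hi', ?_⟩
    rw [ev_append]
    exact hi'Q
  · have h1 : σ F t (ev (gen κ) w1) = 0 := by
      have := (hσ F).eq_zero_of_no_cross hB t 1 w1 (fun l1 u l2 hh => by
        rw [one_mul]; exact hw1 l1 u l2 hh)
      simpa using this
    have h2 : σ F ((ev (gen κ) (w1 ++ v))⁻¹ * t) (ev (gen κ) w2) = 0 :=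
      (hσ F).eq_zero_of_no_cross hB t _ w2 (fun l1 u l2 hh => by
        rw [← ev_append]; exact hw2 l1 u l2 hh)
    rw [ev_append, (hσ F).mul, h2, ev_append, (hσ F).mul, h1, hs1]
    simp

end TA
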