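import Pool.Agent.H14.TA.Stmts

/-!
# Project ART, module M2
-/

namespace TA

namespace M2

theorem head_dropWhile {α : Type*} (p : α → Bool) (l : List α) :
    ∀ s ∈ (l.dropWhile p).head?, p s = false := by
  induction l with
  | nil => simp
  | cons a l ih =>
    intro s hs
    rw [List.dropWhile_cons] at hs
    split_ifs at hs with h
    · exact ih s hs
    · simp only [List.head?_cons, Option.mem_def, Option.some.injEq] at hs
      subst hs
      simpa using h

theorem long (hBL : S_BL) (hG : S_GOODF) (hD1 : S_D1) (hR : S_RETL) {κ : ℕ} (hκ : 20 ≤ κ)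
    (x : Fin 3) (t g0 : G κ) (m : List (Fin 3 × ℤ)) (hgeo : Geo (gen κ) m) (hm : m ≠ [])
    (hhead : ∀ s ∈ m.head?, s.1 ≠ x) (a b : ℤ)
    (ha : t⁻¹ * g0 * gen κ x ^ a ∈ QF κ (x, false))
    (hb : t⁻¹ * (g0 * ev (gen κ) m) * gen κ x ^ b ∈ QF κ (x, false)) :
    ∃ u r z, m = u ++ r ∧ z ≠ x ∧ (∀ s ∈ u, s.1 ≠ z) ∧ κ ≤ u.length + 2 := by
  obtain ⟨s, m', rfl⟩ := List.exists_cons_of_ne_nil hm
  have hs1 : s.1 ≠ x := hhead s (by simp)
  obtain ⟨i, hi⟩ : ∃ i, s.1 = yy x i := by
    rcases letter_cases x s.1 with h | h | h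
    · exact absurd h hs1
    · exact ⟨false, h⟩
    · exact ⟨true, h⟩
  have hz : yy x (!i) ≠ x := yy_ne x _
  have hiz : yy x i ≠ yy x (!i) := yy_ne' x i
  let p : Fin 3 × ℤ → Bool := fun s => decide (s.1 ≠ yy x (!i))
  have hsplit : (s :: m').takeWhile p ++ (s :: m').dropWhile p = s :: m' :=
    List.takeWhile_append_dropWhile
  have hps : p s = true := by simp [p, hi, hiz]
  have hq : gen κ x ^ (-a) * ev (gen κ) (s :: m') * gen κ x ^ b ∈ QF κ (x, false) := by
    have h := (QF κ (x, false)).mul_mem ((QF κ (x, false)).inv_mem ha) hb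
    have e : (t⁻¹ * g0 * gen κ x ^ a)⁻¹ * (t⁻¹ * (g0 * ev (gen κ) (s :: m')) *
        gen κ x ^ b) = gen κ x ^ (-a) * ev (gen κ) (s :: m') * gen κ x ^ b := by
      group
    rwa [e] at h
  have hall : ∀ r ∈ (s :: m').takeWhile p, r.1 ≠ yy x (!i) := by
    intro r hr
    have := List.mem_takeWhile_imp hr
    simpa [p] using this
  obtain ⟨β, hβ, hβ1, n, hn⟩ := hBL κ hκ x (BF κ (x, false)) (hG κ hκ (x, false)) i _ hq (-a) (-b)
    ((s :: m').takeWhile p) ((s :: m').dropWhile p) (by rw [hsplit]; exact hgeo)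
    ⟨s, by simp [hps], hi⟩ hall
    (fun r hr => by
      have := head_dropWhile p _ r hr
      simpa [p] using this) (by rw [hsplit]; group)
  refine ⟨(s :: m').takeWhile p, (s :: m').dropWhile p, yy x (!i), hsplit.symm, hz, hall, ?_⟩
  -- length
  have hmem : β ∈ Subgroup.zpowers (del κ) := by
    have : BF κ (x, false) i = Subgroup.zpowers (del κ) := by
      simp [BF]
    rwa [this] at hβ
  obtain ⟨k, hk⟩ := Subgroup.mem_zpowers_iff.1 hmem
  have hk0 : k ≠ 0 := by
    rintro rfl
    apply hβ1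
    rw [← hk, zpow_zero]
  have hxy : x ≠ yy x i := (yy_ne x i).symm
  obtain ⟨l', hl1, -, hl2⟩ := (hR κ x (yy x i) hxy).2.1 ((s :: m').takeWhile p) (by
    intro r hr
    rcases letter_cases x r.1 with h | h | h
    · exact Or.inl h
    · right
      cases i
      · exact h
      · exact absurd h (hall r hr)
    · right
      cases i
      · exact absurd h (hall r hr)
      · exact h)
  have hl3 : ev (dgen κ) l' = dgen κ false ^ (a) * del κ ^ k * dgen κ false ^ n := by
    apply iota_injective κ hxy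
    rw [← hl2, hn, map_mul, map_mul, map_zpow, map_zpow, map_zpow, iota_false, ← hk, map_zpow]
    simp
  have := hD1 κ k a n hk0 l' hl3
  omega

theorem head_ne {l1 l2 : List (Fin 3 × ℤ)} {s : Fin 3 × ℤ} (h : Red (l1 ++ s :: l2)) :
    ∀ r ∈ l2.head?, r.1 ≠ s.1 := by
  intro r hr
  have h1 := (h.right).1
  cases l2 with
  | nil => simp at hr
  | cons r' l2 =>
    simp only [List.head?_cons, Option.mem_def, Option.some.injEq] at hr
    subst hr
    rw [List.isChain_cons_cons] at h1
    exact h1.1.symm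

end M2

open M2 in
theorem m2_of (hBL : S_BL) (hG : S_GOODF) (hD1 : S_D1) (hP : S_PARTS) (hR : S_RETL) : S_M2 := by
  intro κ hκ w l1 s l2 hgeo hw hshort t hc m1 s' m2 hw' hc'
  obtain ⟨-, a, ha, haQ⟩ := hc
  obtain ⟨hs', b, hb, hbQ⟩ := hc'
  have hred := hgeo.red
  -- a long two-letter word next to `s` is impossible
  have hno : ∀ l u r z, w = l ++ u ++ r → z ≠ s.1 → (∀ q ∈ u, q.1 ≠ z) → 7 ≤ u.length →
      l.length ≤ l1.length → l1.length < l.length + u.length → False := by
    intro l u r z h1 _ h2 h3 h4 h5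
    obtain ⟨w1, v, w2, l', r', hpart, rfl, rfl, rfl⟩ := hP.1 w l u r z h1 (by omega) h2
    have := hshort w1 _ w2 z hpart (by simp at h4; omega) (by simp at h5 ⊢; omega)
    simp at this
    omega
  rcases lt_trichotomy l1.length m1.length with h | h | h
  · -- later crossing
    exfalso
    obtain ⟨m', hm'⟩ : ∃ m', m1 = l1 ++ s :: m' := by
      have h2 : l1 ++ s :: l2 = m1 ++ (s' :: m2) := by rw [← hw, hw']
      have h3 := congrArg (List.take m1.length) h2
      rw [List.take_left, List.take_append, List.take_of_length_le h.le] at h3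
      obtain ⟨m, hm⟩ : ∃ m, m1.length - l1.length = m + 1 := ⟨m1.length - l1.length - 1, by omega⟩
      rw [hm, List.take_succ_cons] at h3
      exact ⟨_, h3.symm⟩
    subst hm'
    subst hw'
    have hgeo' : Geo (gen κ) m' := hgeo.sub ⟨l1 ++ [s], s' :: m2, by simp⟩
    have hne : m' ≠ [] := by
      rintro rfl
      have h1 : Red ([s] ++ (s' :: m2)) := hred.sub ⟨l1, [], by simp⟩
      exact (red_append.1 h1).2.2 s (by simp) s' (by simp) hs'.symm
    have hhead : ∀ r ∈ m'.head?, r.1 ≠ s.1 :=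
      head_ne (l1 := l1) (l2 := m') (hred.sub ⟨[], s' :: m2, by simp⟩)
    obtain ⟨u, r, z, rfl, hz, hall, hlen⟩ := long hBL hG hD1 hR hκ s.1 t
      (ev (gen κ) l1 * gen κ s.1 ^ s.2) m' hgeo' hne hhead (a - s.2) b (by
        have e : t⁻¹ * (ev (gen κ) l1 * gen κ s.1 ^ s.2) * gen κ s.1 ^ (a - s.2) =
            t⁻¹ * ev (gen κ) l1 * gen κ s.1 ^ a := by
          rw [zpow_sub]; group
        rw [e]; exact haQ) (by
        have e : ev (gen κ) (l1 ++ s :: m') = ev (gen κ) l1 * gen κ s.1 ^ s.2 *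
            ev (gen κ) m' := by
          simp only [ev_append, ev_cons, mul_assoc]
        rw [← e]
        exact hbQ)
    refine hno l1 (s :: u) (r ++ s' :: m2) z (by simp) hz (fun q hq => ?_) (by simp; omega)
      le_rfl (by simp)
    rcases List.mem_cons.1 hq with rfl | hq
    · exact hz.symm
    · exact hall q hq
  · exact h.symm
  · -- earlier crossing
    exfalso
    obtain ⟨m', hm'⟩ : ∃ m', l1 = m1 ++ s' :: m' := by
      have h2 : m1 ++ s' :: m2 = l1 ++ (s :: l2) := by rw [← hw', hw]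
      have h3 := congrArg (List.take l1.length) h2
      rw [List.take_left, List.take_append, List.take_of_length_le h.le] at h3
      obtain ⟨m, hm⟩ : ∃ m, l1.length - m1.length = m + 1 := ⟨l1.length - m1.length - 1, by omega⟩
      rw [hm, List.take_succ_cons] at h3
      exact ⟨_, h3.symm⟩
    subst hm'
    subst hw
    have hgeo' : Geo (gen κ) (linv m') :=
      (hgeo.sub ⟨m1 ++ [s'], s :: l2, by simp⟩ : Geo (gen κ) m').linv
    have hne : m' ≠ [] := by
      rintro rfl
      have h1 : Red ([s'] ++ (s :: l2)) := hred.sub ⟨m1, [], by simp⟩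
      exact (red_append.1 h1).2.2 s' (by simp) s (by simp) hs'
    have hne' : linv m' ≠ [] := by
      intro h
      apply hne
      have := congrArg linv h
      simpa using this
    have hhead : ∀ r ∈ (linv m').head?, r.1 ≠ s.1 := by
      have h1 : Red (m' ++ s :: l2) := hred.sub ⟨m1 ++ [s'], [], by simp⟩
      have h2 : Red (linv (m' ++ [s])) := (h1.sub ⟨[], l2, by simp⟩ : Red (m' ++ [s])).linv
      rw [linv_append] at h2
      intro r hr
      exact (red_append.1 h2).2.2 (s.1, -s.2) (by simp [linv]) r hr |>.symm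
    obtain ⟨u, r, z, hu, hz, hall, hlen⟩ := long hBL hG hD1 hR hκ s.1 t
      (ev (gen κ) (m1 ++ s' :: m')) (linv m') hgeo' hne' hhead a (b - s'.2) haQ (by
        have e : t⁻¹ * (ev (gen κ) (m1 ++ s' :: m') * ev (gen κ) (linv m')) *
            gen κ s.1 ^ (b - s'.2) = t⁻¹ * ev (gen κ) m1 * gen κ s.1 ^ b := by
          simp only [ev_append, ev_cons, ev_linv, hs', zpow_sub]
          group
        rw [e]; exact hbQ)
    have hm'' : m' = linv r ++ linv u := by
      rw [← linv_append, ← hu, linv_linv]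
    refine hno (m1 ++ s' :: linv r) (linv u ++ [s]) l2 z (by rw [hm'']; simp) hz
      (fun q hq => ?_) (by simp; omega) (by rw [hm'']; simp) (by rw [hm'']; simp; omega)
    rcases List.mem_append.1 hq with hq | hq
    · exact hall (q.1, -q.2) (mem_linv.1 hq)
    · rw [List.mem_singleton.1 hq]
      exact hz.symm

end TA
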